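import Pool.Agent.Q230.IP.St

/-!
# Project IP (helper230), job ALG2: elimination by Cramer (helper149)
-/

namespace Pool.Agent.Q149.IP

open Pool.Agent.Q230.IP

/-- Determinants of matrices with entries given by polynomials. -/
theorem det_poly {σ B : Type} [Fintype B] [DecidableEq B] {d C : ℕ}
    (N : (σ → ℝ) → Matrix B B ℝ) (h : ∀ i j, PolyFn d C (fun z => N z i j)) :
    PolyFn (Fintype.card B * d) ((Fintype.card B * C) ^ Fintype.card B)
      (fun z => (N z).det) := by
  have h1 : ∀ s : Equiv.Perm B, PolyFn (Fintype.card B * d) (C ^ Fintype.card B)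
      (fun z => ((Equiv.Perm.sign s : ℤ) : ℝ) * ∏ i, N z (s i) i) := by
    intro s
    have h2 := PolyFn.prod (σ := σ) Finset.univ (fun i z => N z (s i) i) (fun _ => d)
      (fun _ => C) (fun i _ => h _ _)
    have h3 := (PolyFn.const (σ := σ) (Equiv.Perm.sign s : ℤ)).mul h2
    refine h3.mono ?_ ?_
    · simp
    · simp
  have h4 := PolyFn.sum_const (Finset.univ : Finset (Equiv.Perm B)) _ fun s _ => h1 s
  refine (h4.mono le_rfl ?_).congr fun z => ?_
  · rw [Finset.card_univ, Fintype.card_perm, mul_pow]
    exact Nat.mul_le_mul_right _ (Nat.factorial_le_pow _)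
  · rw [Matrix.det_apply']

/-- ALG2 -/
theorem alg (hS : S_siegel) : S_alg := by
  classical
  intro R Y B E _ _ _ _ d C D hYB hEB hd hC hD M r hM hr τ
  have hY1 : 1 ≤ Fintype.card Y := Fintype.card_pos_iff.2 ⟨τ⟩
  have hB1 : 1 ≤ Fintype.card B := by omega
  have e : B ≃ E := Fintype.equivOfCardEq hEB.symm
  obtain ⟨N, hN⟩ : ∃ N : (R ⊕ Y → ℝ) → Matrix B B ℝ, N = fun z => Matrix.of fun i j =>
    M z (e i) j := ⟨_, rfl⟩
  obtain ⟨r', hr'⟩ : ∃ r' : (R ⊕ Y → ℝ) → B → ℝ, r' = fun z i => r z (e i) := ⟨_, rfl⟩
  have hNp : ∀ i j, PolyFn d C (fun z => N z i j) := by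
    intro i j
    rw [hN]
    exact hM (e i) j
  have hg := det_poly N hNp
  have hcol : ∀ k : B, PolyFn (Fintype.card B * d) ((Fintype.card B * C) ^ Fintype.card B)
      (fun z => ((N z).updateCol k (r' z)).det) := by
    intro k
    refine det_poly (fun z => (N z).updateCol k (r' z)) fun i j => ?_
    by_cases h : j = k
    · subst h
      refine (hr (e i)).congr fun z => ?_
      rw [Matrix.updateCol_self, hr']
    · refine (hNp i j).congr fun z => ?_
      rw [Matrix.updateCol_ne h]
  have hC1 : 1 ≤ (Fintype.card B * C) ^ Fintype.card B :=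
    Nat.one_le_pow _ _ (Nat.mul_pos hB1 hC)
  have hcardσ : Fintype.card (R ⊕ Y) = Fintype.card R + Fintype.card Y := Fintype.card_sum
  have hcoord : ∀ i : R ⊕ Y, PolyFn (Fintype.card B * d + 1)
      ((Fintype.card B * C) ^ Fintype.card B) (fun z => z i * (N z).det) := fun i =>
    ((PolyFn.coord i).mul hg).mono (by omega) (by rw [one_mul])
  obtain ⟨q, hq0, hqb, hq⟩ := hS (R ⊕ Y) (Option (R ⊕ B)) (Fintype.card B * d + 1)
    ((Fintype.card B * C) ^ Fintype.card B) D
    (by rw [Fintype.card_option, Fintype.card_sum, Fintype.card_sum, hYB]) hC1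
    (by rw [hcardσ]; exact hD)
    (fun i z => i.elim (z (Sum.inr τ) * (N z).det)
      (Sum.elim (fun c => z (Sum.inl c) * (N z).det) fun k => ((N z).updateCol k (r' z)).det))
    (fun z => (N z).det) (by
      rintro (_ | (c | k))
      · exact hcoord _
      · exact hcoord _
      · exact (hcol k).mono (by omega) le_rfl) (hg.mono (by omega) le_rfl)
  refine ⟨q, hq0, fun a => ?_, fun z b hb hinj => ?_⟩
  · have := hqb a
    rw [hcardσ] at this
    exact this
  · have hdet : (N z).det ≠ 0 := by
      intro h0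
      obtain ⟨v, hv0, hv⟩ := Matrix.exists_mulVec_eq_zero_iff.2 h0
      apply hv0
      apply hinj
      intro i
      have h1 := congrFun hv (e.symm i)
      rw [hN] at h1
      simp only [Matrix.mulVec, dotProduct, Matrix.of_apply, Equiv.apply_symm_apply,
        Pi.zero_apply] at h1
      exact h1
    have hNb : Matrix.mulVec (N z) b = r' z := by
      funext i
      rw [hN, hr']
      simp only [Matrix.mulVec, dotProduct, Matrix.of_apply]
      exact hb (e i)
    have hcr : ∀ k, ((N z).updateCol k (r' z)).det / (N z).det = b k := by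
      intro k
      rw [← Matrix.cramer_apply, Matrix.cramer_eq_adjugate_mulVec, ← hNb,
        Matrix.mulVec_mulVec, Matrix.adjugate_mul, Matrix.smul_mulVec, Matrix.one_mulVec,
        Pi.smul_apply, smul_eq_mul]
      field_simp
    have hz := hq z hdet
    rw [← hz]
    congr 1
    funext i
    rcases i with _ | (c | k)
    · show z (Sum.inr τ) = z (Sum.inr τ) * (N z).det / (N z).det
      field_simp
    · show z (Sum.inl c) = z (Sum.inl c) * (N z).det / (N z).det
      field_simp
    · exact (hcr k).symm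

end Pool.Agent.Q149.IP
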