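import Pool.Agent.Q230.IP.St

/-!
# Project IP (helper230), job FFD: derivatives and continuity of the objective (helper149)
-/

namespace Pool.Agent.Q149.IP

open Pool.Agent.Q230.IP MvPolynomial

theorem cont_aeval {n : ℕ} (P : MvPolynomial (Fin n) ℤ) :
    Continuous fun v : Fin n → ℝ => aeval v P := by
  have h : (fun v : Fin n → ℝ => aeval v P) =
      fun v => eval v (MvPolynomial.map (algebraMap ℤ ℝ) P) := by
    funext v
    rw [aeval_def, eval₂_eq_eval_map]
  rw [h]
  exact MvPolynomial.continuous_eval _

theorem cont_uu {n t : ℕ} : Continuous fun v : Fin n → ℝ => uu t v := by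
  unfold uu
  fun_prop

theorem hd_aeval {n : ℕ} (P : MvPolynomial (Fin n) ℤ) (v : Fin n → ℝ) (l : Fin n) :
    HasDerivAt (fun h : ℝ => aeval (Function.update v l h) P) (aeval v (pderiv l P)) (v l) := by
  induction P using MvPolynomial.induction_on with
  | C a =>
    simp only [algHom_C, pderiv_C, map_zero]
    exact hasDerivAt_const _ _
  | add p q hp hq =>
    simp only [map_add]
    exact hp.add hq
  | mul_X p i hp =>
    simp only [map_mul, aeval_X, Derivation.leibniz, map_add, smul_eq_mul, pderiv_X]
    have hi : HasDerivAt (fun h : ℝ => Function.update v l h i)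
        (aeval v (Pi.single (M := fun _ => MvPolynomial (Fin n) ℤ) l 1 i)) (v l) := by
      by_cases h : i = l
      · subst h
        simp only [Function.update_self, Pi.single_eq_same, map_one]
        exact hasDerivAt_id _
      · simp only [Function.update_of_ne h, Pi.single_eq_of_ne h, map_zero]
        exact hasDerivAt_const (v l) (v i)
    have h := hp.mul hi
    simp only [Function.update_eq_self] at h
    refine h.congr_deriv ?_
    ring

theorem hd_upd {n : ℕ} (v : Fin n → ℝ) (l i : Fin n) :
    HasDerivAt (fun h : ℝ => Function.update v l h i) (if i = l then 1 else 0) (v l) := by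
  by_cases h : i = l
  · subst h
    simp only [Function.update_self, if_pos]
    exact hasDerivAt_id _
  · simp only [Function.update_of_ne h, if_neg h]
    exact hasDerivAt_const _ _

theorem hd_uu {n t : ℕ} (v : Fin n → ℝ) (l : Fin n) :
    HasDerivAt (fun h : ℝ => uu t (Function.update v l h)) ((t : ℝ) ^ (l : ℕ)) (v l) := by
  unfold uu
  have h := HasDerivAt.fun_sum (u := (Finset.univ : Finset (Fin n)))
    (A := fun i h => (t : ℝ) ^ (i : ℕ) * Function.update v l h i)
    (A' := fun i => (t : ℝ) ^ (i : ℕ) * (if i = l then 1 else 0)) (x := v l)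
    (fun i _ => (hd_upd v l i).const_mul _)
  refine h.congr_deriv ?_
  simp

theorem hd_uupow {n t : ℕ} (v : Fin n → ℝ) (l : Fin n) (k : ℕ) :
    HasDerivAt (fun h : ℝ => uu t (Function.update v l h) ^ k)
      (k * uu t v ^ (k - 1) * (t : ℝ) ^ (l : ℕ)) (v l) := by
  have h := (hd_uu (t := t) v l).pow k
  simp only [Function.update_eq_self] at h
  exact h

theorem cont_Phi {n : ℕ} (A : Dat n) :
    Continuous fun z : (Fin n → ℝ) × (Fin n → ℝ) => A.Phi z.1 z.2 := by
  unfold Dat.Phi
  refine Continuous.add (continuous_finsetSum _ fun l _ => ?_)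
    ((cont_aeval A.P).comp continuous_snd)
  split_ifs
  · fun_prop
  · exact continuous_const

theorem cont_bas {n T : ℕ} (i : PI n T) :
    Continuous fun z : (Fin n → ℝ) × (Fin n → ℝ) => bas z.1 z.2 i := by
  rcases i with l | (⟨t, j⟩ | ⟨t, l, j⟩)
  · show Continuous fun z : (Fin n → ℝ) × (Fin n → ℝ) => z.1 l
    fun_prop
  · show Continuous fun z : (Fin n → ℝ) × (Fin n → ℝ) => uu t z.2 ^ (j : ℕ)
    exact (cont_uu.comp continuous_snd).pow _
  · show Continuous fun z : (Fin n → ℝ) × (Fin n → ℝ) => uu t z.2 ^ (j : ℕ) * z.2 l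
    exact ((cont_uu.comp continuous_snd).pow _).mul (by fun_prop)

theorem hd_PhiX {n : ℕ} (A : Dat n) (x v d : Fin n → ℝ) :
    HasDerivAt (fun h : ℝ => A.Phi (x + h • d) v)
      (∑ l, d l * (if A.E l then -2 * (v l - x l) else 0)) 0 := by
  unfold Dat.Phi
  refine HasDerivAt.add_const _ ?_
  refine HasDerivAt.fun_sum fun l _ => ?_
  by_cases h : A.E l = true
  · simp only [if_pos h, Pi.add_apply, Pi.smul_apply, smul_eq_mul]
    have h1 : HasDerivAt (fun h : ℝ => v l - (x l + h * d l)) (-(1 * d l)) 0 :=
      (((hasDerivAt_id (0 : ℝ)).mul_const (d l)).const_add (x l)).const_sub (v l)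
    have h2 := h1.pow 2
    refine h2.congr_deriv ?_
    simp
    ring
  · simp only [if_neg h, mul_zero]
    exact hasDerivAt_const _ _

theorem hd_PhiV {n : ℕ} (A : Dat n) (x v : Fin n → ℝ) (l : Fin n) :
    HasDerivAt (fun h : ℝ => A.Phi x (Function.update v l h)) (A.PhiV l x v) (v l) := by
  unfold Dat.Phi Dat.PhiV
  refine HasDerivAt.add ?_ (hd_aeval A.P v l)
  have h1 : ∀ i : Fin n, HasDerivAt (fun h : ℝ => if A.E i = true then
      (Function.update v l h i - x i) ^ 2 else 0)
      (if i = l then (if A.E l = true then 2 * (v l - x l) else 0) else 0) (v l) := by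
    intro i
    by_cases hE : A.E i = true
    · simp only [if_pos hE]
      have h2 := ((hd_upd v l i).sub_const (x i)).pow 2
      simp only [Function.update_eq_self] at h2
      refine h2.congr_deriv ?_
      by_cases hil : i = l
      · subst hil
        rw [if_pos rfl, if_pos rfl, if_pos hE]
        simp
      · rw [if_neg hil, if_neg hil]
        simp
    · simp only [if_neg hE]
      by_cases hil : i = l
      · subst hil
        rw [if_pos rfl, if_neg hE]
        exact hasDerivAt_const _ _
      · rw [if_neg hil]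
        exact hasDerivAt_const _ _
  have h2 := HasDerivAt.fun_sum (u := (Finset.univ : Finset (Fin n))) fun i _ => h1 i
  refine h2.congr_deriv ?_
  simp

/-- FFD -/
theorem ffd : S_FFD := by
  intro n T A
  refine ⟨?_, fun p l => ?_, fun p x v d => ?_, fun p x v l => ?_⟩
  · unfold Dat.FF Dat.F0
    have c1 : Continuous fun z : (Par n T → ℝ) × ((Fin n → ℝ) × (Fin n → ℝ)) =>
        A.Phi z.2.1 z.2.2 := (cont_Phi A).comp continuous_snd
    have c2 : ∀ t : Fin T, Continuous fun z : (Par n T → ℝ) × ((Fin n → ℝ) × (Fin n → ℝ)) =>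
        uu t z.2.2 := fun t => cont_uu.comp (by fun_prop)
    have c3 : ∀ i : PI n T, Continuous fun z : (Par n T → ℝ) × ((Fin n → ℝ) × (Fin n → ℝ)) =>
        bas z.2.1 z.2.2 i := fun i => (cont_bas i).comp continuous_snd
    fun_prop
  · unfold Dat.FFX Dat.F0X
    split_ifs <;> fun_prop
  · unfold Dat.FF Dat.F0
    have h1 := (hd_PhiX A x v d).const_mul (p (Sum.inl 1) * (1 + v A.o ^ 2))
    have h2 : HasDerivAt (fun h : ℝ => ∑ l, (x + h • d) l ^ 4) (∑ l, d l * (4 * x l ^ 3)) 0 := by
      refine HasDerivAt.fun_sum fun l _ => ?_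
      have h3 : HasDerivAt (fun h : ℝ => (x + h • d) l) (1 * d l) 0 :=
        ((hasDerivAt_id (0 : ℝ)).mul_const (d l)).const_add (x l)
      have h4 := h3.pow 4
      refine h4.congr_deriv ?_
      simp
      ring
    have h3 : HasDerivAt (fun h : ℝ => ∑ i : PI n T, p (Sum.inr i) * bas (x + h • d) v i)
        (∑ i : PI n T, p (Sum.inr i) * ∑ l, d l * basX l i) 0 := by
      refine HasDerivAt.fun_sum fun i _ => HasDerivAt.const_mul _ ?_
      rcases i with l | (⟨t, j⟩ | ⟨t, l, j⟩)
      · show HasDerivAt (fun h : ℝ => (x + h • d) l) _ 0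
        have h3 : HasDerivAt (fun h : ℝ => (x + h • d) l) (1 * d l) 0 :=
          ((hasDerivAt_id (0 : ℝ)).mul_const (d l)).const_add (x l)
        refine h3.congr_deriv ?_
        simp [basX]
      · simp only [bas, basX, mul_zero, Finset.sum_const_zero]
        exact hasDerivAt_const _ _
      · simp only [bas, basX, mul_zero, Finset.sum_const_zero]
        exact hasDerivAt_const _ _
    have h4 := ((h1.add_const (p (Sum.inl 2) * ∑ t : Fin T, uu t v ^ (2 * n + 6))).sub
      (h2.const_mul (p (Sum.inl 0)))).add h3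
    refine h4.congr_deriv ?_
    unfold Dat.FFX Dat.F0X
    simp only [mul_add, mul_sub, Finset.sum_add_distrib, Finset.sum_sub_distrib, Finset.mul_sum]
    congr 1
    · congr 1
      · exact Finset.sum_congr rfl fun l _ => by ring
      · exact Finset.sum_congr rfl fun l _ => by ring
    · rw [Finset.sum_comm]
      exact Finset.sum_congr rfl fun l _ => Finset.sum_congr rfl fun i _ => by ring
  · unfold Dat.FF Dat.F0
    have h1 : HasDerivAt (fun h : ℝ => p (Sum.inl 1) * (1 + Function.update v l h A.o ^ 2) *
        A.Phi x (Function.update v l h))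
        (p (Sum.inl 1) * ((if l = A.o then 2 * v A.o * A.Phi x v else 0) +
          (1 + v A.o ^ 2) * A.PhiV l x v)) (v l) := by
      have h2 := (((hd_upd v l A.o).pow 2).const_add 1).const_mul (p (Sum.inl 1))
      have h3 := h2.mul (hd_PhiV A x v l)
      simp only [Function.update_eq_self] at h3
      refine h3.congr_deriv ?_
      by_cases hl : l = A.o
      · subst hl
        simp
        ring
      · rw [if_neg (Ne.symm hl), if_neg hl]
        simp
        ring
    have h2 : HasDerivAt (fun h : ℝ => p (Sum.inl 2) *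
        ∑ t : Fin T, uu t (Function.update v l h) ^ (2 * n + 6))
        (p (Sum.inl 2) * ∑ t : Fin T, (2 * n + 6 : ℕ) * (t : ℝ) ^ (l : ℕ) *
          uu t v ^ (2 * n + 5)) (v l) := by
      refine HasDerivAt.const_mul _ (HasDerivAt.fun_sum fun t _ => ?_)
      have h3 := hd_uupow (t := t) v l (2 * n + 6)
      refine h3.congr_deriv ?_
      have e : 2 * n + 6 - 1 = 2 * n + 5 := by omega
      rw [e]
      ring
    have h3 : HasDerivAt (fun h : ℝ => ∑ i : PI n T, p (Sum.inr i) *
        bas x (Function.update v l h) i) (∑ i : PI n T, p (Sum.inr i) * basV l v i) (v l) := by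
      refine HasDerivAt.fun_sum fun i _ => HasDerivAt.const_mul _ ?_
      rcases i with l' | (⟨t, j⟩ | ⟨t, l', j⟩)
      · exact hasDerivAt_const _ _
      · show HasDerivAt (fun h : ℝ => uu t (Function.update v l h) ^ (j : ℕ))
          ((j : ℕ) * (t : ℝ) ^ (l : ℕ) * uu t v ^ ((j : ℕ) - 1)) (v l)
        refine (hd_uupow (t := t) v l j).congr_deriv ?_
        ring
      · show HasDerivAt (fun h : ℝ => uu t (Function.update v l h) ^ (j : ℕ) *
            Function.update v l h l')
          ((j : ℕ) * (t : ℝ) ^ (l : ℕ) * uu t v ^ ((j : ℕ) - 1) * v l' +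
            if l' = l then uu t v ^ (j : ℕ) else 0) (v l)
        have h4 := (hd_uupow (t := t) v l j).mul (hd_upd v l l')
        simp only [Function.update_eq_self] at h4
        refine h4.congr_deriv ?_
        split_ifs <;> ring
    have h4 := ((h1.add h2).sub_const (p (Sum.inl 0) * ∑ l, x l ^ 4)).add h3
    exact h4

end Pool.Agent.Q149.IP
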