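import Pool.Agent.Q230.IP.St

/-!
# Project IP (helper230), job HIER: hierarchical points (helper149)
-/

namespace Pool.Agent.Q149.IP

open Pool.Agent.Q230.IP

/-- The logarithms of two different monomials at a hierarchical point are far apart. -/
theorem hier_gap {P : Type} [Fintype P] {D e : ℕ} {ps : P → ℕ} {t : ℕ → ℝ} {sg : P → Prop}
    [DecidablePred sg] (hps : Function.Injective ps) (he : D * Fintype.card P + 1 ≤ e)
    (ht0 : 0 ≤ t 0) (ht : ∀ i, e * t i ≤ t (i + 1)) {a a' : P → Fin D} (hne : a ≠ a') :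
    t 0 ≤ |∑ i, (if sg i then (1 : ℝ) else -1) * (a i : ℕ) * t (ps i) -
      ∑ i, (if sg i then (1 : ℝ) else -1) * (a' i : ℕ) * t (ps i)| := by
  classical
  have he1 : (1 : ℝ) ≤ e := by
    have : 1 ≤ e := by omega
    exact_mod_cast this
  have hpos : ∀ i, 0 ≤ t i := by
    intro i
    induction i with
    | zero => exact ht0
    | succ i ih => exact le_trans (by positivity) (ht i)
  have hmono : Monotone t := by
    apply monotone_nat_of_le_succ
    intro i
    refine le_trans ?_ (ht i)
    nlinarith [hpos i]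
  -- the index with the largest position
  obtain ⟨j, hj⟩ := Function.ne_iff.1 hne
  have hS : (Finset.univ.filter fun i => a i ≠ a' i).Nonempty := ⟨j, by simpa using hj⟩
  obtain ⟨i0, hi0, hmax⟩ := Finset.exists_max_image _ ps hS
  have hi0' : a i0 ≠ a' i0 := by simpa using hi0
  have hmax' : ∀ i, i ≠ i0 → a i ≠ a' i → ps i < ps i0 := by
    intro i hii hia
    have h1 := hmax i (by simpa using hia)
    exact lt_of_le_of_ne h1 fun h => hii (hps h)
  rw [← Finset.sum_sub_distrib, ← Finset.add_sum_erase Finset.univ _ (Finset.mem_univ i0)]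
  -- the main term
  have hmain : t (ps i0) ≤ |(if sg i0 then (1 : ℝ) else -1) * (a i0 : ℕ) * t (ps i0) -
      (if sg i0 then (1 : ℝ) else -1) * (a' i0 : ℕ) * t (ps i0)| := by
    have h1 : (if sg i0 then (1 : ℝ) else -1) * (a i0 : ℕ) * t (ps i0) -
        (if sg i0 then (1 : ℝ) else -1) * (a' i0 : ℕ) * t (ps i0) =
        (if sg i0 then (1 : ℝ) else -1) * ((a i0 : ℕ) - (a' i0 : ℕ) : ℝ) * t (ps i0) := by ring
    rw [h1, abs_mul, abs_mul, abs_of_nonneg (hpos _)]
    have h2 : |(if sg i0 then (1 : ℝ) else -1)| = 1 := by split_ifs <;> simp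
    have h3 : (1 : ℝ) ≤ |((a i0 : ℕ) : ℝ) - ((a' i0 : ℕ) : ℝ)| := by
      have h4 : ((a i0 : ℕ) : ℤ) - ((a' i0 : ℕ) : ℤ) ≠ 0 := by
        intro h5
        apply hi0'
        apply Fin.ext
        omega
      have h5 := Int.one_le_abs h4
      exact_mod_cast h5
    rw [h2, one_mul]
    exact le_mul_of_one_le_left (hpos _) h3
  have hother : ∀ i ∈ Finset.univ.erase i0,
      |(if sg i then (1 : ℝ) else -1) * (a i : ℕ) * t (ps i) -
      (if sg i then (1 : ℝ) else -1) * (a' i : ℕ) * t (ps i)| ≤ D * t (ps i0 - 1) := by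
    intro i hi
    rw [Finset.mem_erase] at hi
    have h1 : (if sg i then (1 : ℝ) else -1) * (a i : ℕ) * t (ps i) -
        (if sg i then (1 : ℝ) else -1) * (a' i : ℕ) * t (ps i) =
        (if sg i then (1 : ℝ) else -1) * ((a i : ℕ) - (a' i : ℕ) : ℝ) * t (ps i) := by ring
    have h2 : |(if sg i then (1 : ℝ) else -1)| = 1 := by split_ifs <;> simp
    rw [h1, abs_mul, abs_mul, abs_of_nonneg (hpos _), h2, one_mul]
    by_cases hia : a i = a' i
    · rw [hia, sub_self, abs_zero, zero_mul]
      exact mul_nonneg (Nat.cast_nonneg _) (hpos _)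
    · have h3 := hmax' i hi.1 hia
      apply mul_le_mul _ (hmono (by omega)) (hpos _) (Nat.cast_nonneg _)
      have h4 : ((a i : ℕ) : ℝ) < D := by exact_mod_cast (a i).2
      have h5 : ((a' i : ℕ) : ℝ) < D := by exact_mod_cast (a' i).2
      have h6 : (0 : ℝ) ≤ (a i : ℕ) := Nat.cast_nonneg _
      have h7 : (0 : ℝ) ≤ (a' i : ℕ) := Nat.cast_nonneg _
      rw [abs_le]
      constructor <;> linarith
  have hsum := (Finset.abs_sum_le_sum_abs (fun i =>
    (if sg i then (1 : ℝ) else -1) * (a i : ℕ) * t (ps i) -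
      (if sg i then (1 : ℝ) else -1) * (a' i : ℕ) * t (ps i)) (Finset.univ.erase i0))
  by_cases h0 : ps i0 = 0
  · -- no other index
    have hz : ∑ i ∈ Finset.univ.erase i0, ((if sg i then (1 : ℝ) else -1) * (a i : ℕ) * t (ps i) -
      (if sg i then (1 : ℝ) else -1) * (a' i : ℕ) * t (ps i)) = 0 := by
      refine Finset.sum_eq_zero fun i hi => ?_
      rw [Finset.mem_erase] at hi
      by_cases hia : a i = a' i
      · rw [hia, sub_self]
      · have := hmax' i hi.1 hia
        omega
    rw [hz, add_zero]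
    exact (congrArg t h0.symm).le.trans hmain
  · obtain ⟨k, hk⟩ : ∃ k, ps i0 = k + 1 := ⟨ps i0 - 1, by omega⟩
    have h1 : ∑ i ∈ Finset.univ.erase i0, |(if sg i then (1 : ℝ) else -1) * (a i : ℕ) * t (ps i) -
      (if sg i then (1 : ℝ) else -1) * (a' i : ℕ) * t (ps i)| ≤ Fintype.card P * (D * t k) := by
      refine (Finset.sum_le_card_nsmul _ _ _ hother).trans ?_
      rw [nsmul_eq_mul, hk, Nat.add_sub_cancel]
      apply mul_le_mul_of_nonneg_right _ (mul_nonneg (Nat.cast_nonneg _) (hpos _))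
      have : (Finset.univ.erase i0).card ≤ Fintype.card P := by
        rw [← Finset.card_univ]
        exact Finset.card_erase_le
      exact_mod_cast this
    have h2 := ht k
    rw [hk] at hmain
    have h3 : (D * Fintype.card P + 1 : ℝ) ≤ e := by exact_mod_cast he
    have h4 := mul_le_mul_of_nonneg_right h3 (hpos k)
    have h5 : t 0 ≤ t k := hmono (Nat.zero_le _)
    have h6 := abs_sub_abs_le_abs_sub
      ((if sg i0 then (1 : ℝ) else -1) * (a i0 : ℕ) * t (ps i0) -
        (if sg i0 then (1 : ℝ) else -1) * (a' i0 : ℕ) * t (ps i0))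
      (-∑ i ∈ Finset.univ.erase i0, ((if sg i then (1 : ℝ) else -1) * (a i : ℕ) * t (ps i) -
      (if sg i then (1 : ℝ) else -1) * (a' i : ℕ) * t (ps i)))
    rw [sub_neg_eq_add, abs_neg] at h6
    rw [hk] at h6 ⊢
    refine le_trans ?_ h6
    nlinarith [hsum, h1, h2, h4, h5, hmain]

/-- HIER -/
theorem hier : S_hier := by
  intro P _ D H e q ps s sg _ hq0 hqb hps he hs0 hsH hse
  classical
  have hs1 : ∀ i, 1 ≤ s i := by
    intro i
    induction i with
    | zero => exact hs0
    | succ i ih => exact le_trans (one_le_pow₀ ih) (hse i)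
  have hsp : ∀ i, 0 < s i := fun i => lt_of_lt_of_le one_pos (hs1 i)
  obtain ⟨L, hL⟩ : ∃ L : (P → Fin D) → ℝ, L = fun a =>
    ∑ i, (if sg i then (1 : ℝ) else -1) * (a i : ℕ) * Real.log (s (ps i)) := ⟨_, rfl⟩
  have hm : ∀ a : P → Fin D, ∏ i, (if sg i then s (ps i) else (s (ps i))⁻¹) ^ (a i : ℕ)
      = Real.exp (L a) := by
    intro a
    rw [hL, Real.exp_sum]
    refine Finset.prod_congr rfl fun i _ => ?_
    split_ifs
    · rw [one_mul, mul_comm, Real.exp_mul, Real.exp_log (hsp _), Real.rpow_natCast]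
    · rw [neg_one_mul, neg_mul, Real.exp_neg, mul_comm, Real.exp_mul, Real.exp_log (hsp _),
        Real.rpow_natCast, inv_pow]
  have hgap : ∀ a a' : P → Fin D, a ≠ a' → Real.log (s 0) ≤ |L a - L a'| := by
    intro a a' hne
    rw [hL]
    refine hier_gap (t := fun i => Real.log (s i)) hps he (Real.log_nonneg hs0) (fun i => ?_) hne
    have := Real.log_le_log (pow_pos (hsp i) e) (hse i)
    rwa [Real.log_pow] at this
  obtain ⟨a0, ha0⟩ := Function.ne_iff.1 hq0
  have hS : (Finset.univ.filter fun a => q a ≠ 0).Nonempty := ⟨a0, by simpa using ha0⟩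
  obtain ⟨b, hb, hmax⟩ := Finset.exists_max_image _ L hS
  have hqb0 : q b ≠ 0 := by simpa using hb
  have hH1 : 1 ≤ H := le_trans (by
    have := Int.natAbs_pos.2 hqb0
    omega) (hqb b)
  have hD1 : 1 ≤ D ^ Fintype.card P := by
    have : 0 < Fintype.card (P → Fin D) := Fintype.card_pos_iff.2 ⟨b⟩
    rw [Fintype.card_fun, Fintype.card_fin] at this
    exact this
  have hs0' : 1 < s 0 := by
    refine lt_of_le_of_lt ?_ hsH
    have h1 : 1 ≤ D ^ Fintype.card P * H := Nat.mul_pos hD1 hH1
    exact_mod_cast h1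
  have hlog : 0 < Real.log (s 0) := Real.log_pos hs0'
  have hsmall : ∀ a ∈ Finset.univ.erase b, |(q a : ℝ) * Real.exp (L a)|
      ≤ H * (Real.exp (L b) / s 0) := by
    intro a ha
    rw [Finset.mem_erase] at ha
    by_cases hqa : q a = 0
    · rw [hqa, Int.cast_zero, zero_mul, abs_zero]
      have := hsp 0
      positivity
    · have h1 := hmax a (by simpa using hqa)
      have h2 := hgap a b ha.1
      rw [abs_of_nonpos (by linarith)] at h2
      have h3 : Real.exp (L a) ≤ Real.exp (L b) / s 0 := by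
        rw [le_div_iff₀ (hsp 0), ← Real.exp_log (hsp 0), ← Real.exp_add]
        apply Real.exp_le_exp.2
        linarith
      rw [abs_mul, abs_of_pos (Real.exp_pos _)]
      apply mul_le_mul _ h3 (Real.exp_pos _).le (Nat.cast_nonneg _)
      have := hqb a
      rw [← Int.cast_abs, Int.abs_eq_natAbs]
      exact_mod_cast this
  intro hzero
  unfold bev at hzero
  have hzero' : ∑ a, (q a : ℝ) * Real.exp (L a) = 0 := by
    rw [← hzero]
    refine Finset.sum_congr rfl fun a _ => ?_
    rw [← hm]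
  rw [← Finset.add_sum_erase Finset.univ _ (Finset.mem_univ b)] at hzero'
  have h1 : |∑ a ∈ Finset.univ.erase b, (q a : ℝ) * Real.exp (L a)|
      ≤ D ^ Fintype.card P * (H * (Real.exp (L b) / s 0)) := by
    refine (Finset.abs_sum_le_sum_abs _ _).trans ?_
    refine (Finset.sum_le_card_nsmul _ _ _ hsmall).trans ?_
    rw [nsmul_eq_mul]
    have := hsp 0
    apply mul_le_mul_of_nonneg_right _ (by positivity)
    have h2 : (Finset.univ.erase b).card ≤ D ^ Fintype.card P := by
      refine Finset.card_erase_le.trans ?_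
      rw [Finset.card_univ, Fintype.card_fun, Fintype.card_fin]
    exact_mod_cast h2
  have h2 : D ^ Fintype.card P * (H * (Real.exp (L b) / s 0)) < Real.exp (L b) := by
    have e1 : (D : ℝ) ^ Fintype.card P * (H * (Real.exp (L b) / s 0))
        = (D ^ Fintype.card P * H / s 0) * Real.exp (L b) := by ring
    rw [e1]
    have h3 : (D : ℝ) ^ Fintype.card P * H / s 0 < 1 := by
      rw [div_lt_one (hsp 0)]
      exact hsH
    have := Real.exp_pos (L b)
    nlinarith
  have h3 : Real.exp (L b) ≤ |(q b : ℝ) * Real.exp (L b)| := by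
    rw [abs_mul, abs_of_pos (Real.exp_pos _)]
    apply le_mul_of_one_le_left (Real.exp_pos _).le
    have := Int.one_le_abs hqb0
    exact_mod_cast this
  have h4 : (q b : ℝ) * Real.exp (L b) = -∑ a ∈ Finset.univ.erase b, (q a : ℝ) * Real.exp (L a) := by
    linarith
  rw [h4, abs_neg] at h3
  linarith

end Pool.Agent.Q149.IP
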