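import Pool.Agent.Q230.IP.St

/-!
# Project IP (helper230), job MM1: existence of the max-min value (helper149)
-/

namespace Pool.Agent.Q149.IP

open Pool.Agent.Q230.IP

/-- MM1 -/
theorem mmex : S_mmex := by
  intro n f hf h1 h2
  have hmin : ∀ x : Fin n → ℝ, ∃ v, ∀ w, f x v ≤ f x w := by
    intro x
    obtain ⟨R, hR⟩ := h1 ‖x‖ (f x 0)
    have hc : Continuous (fun v => f x v) :=
      hf.comp (by fun_prop : Continuous fun v : Fin n → ℝ => (x, v))
    obtain ⟨v, hv, hvm⟩ := (isCompact_closedBall (0 : Fin n → ℝ) (max R 0)).exists_isMinOn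
      ⟨0, by simp⟩ hc.continuousOn
    refine ⟨v, fun w => ?_⟩
    by_cases hw : w ∈ Metric.closedBall (0 : Fin n → ℝ) (max R 0)
    · exact hvm hw
    · have h3 : f x v ≤ f x 0 := hvm (by simp : (0 : Fin n → ℝ) ∈ Metric.closedBall 0 (max R 0))
      rw [mem_closedBall_zero_iff, not_le] at hw
      exact h3.trans (hR x w le_rfl ((le_max_left _ _).trans hw.le))
  choose g hg using hmin
  have husc : UpperSemicontinuous (fun x => f x (g x)) := by
    intro x y hy
    have hc : ContinuousAt (fun x' => f x' (g x)) x :=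
      (hf.comp (by fun_prop : Continuous fun x' : Fin n → ℝ => (x', g x))).continuousAt
    filter_upwards [hc.eventually (gt_mem_nhds (show f x (g x) < y from hy))] with x' hx'
    exact (hg x' (g x)).trans_lt hx'
  obtain ⟨R, hR⟩ := h2 (f 0 (g 0))
  obtain ⟨x, hx, hxm⟩ := (husc.upperSemicontinuousOn
    (Metric.closedBall (0 : Fin n → ℝ) (max R 0))).exists_isMaxOn ⟨0, by simp⟩
    (isCompact_closedBall _ _)
  refine ⟨x, f x (g x), fun v => hg x v, fun y => ⟨g y, ?_⟩⟩
  by_cases hy : y ∈ Metric.closedBall (0 : Fin n → ℝ) (max R 0)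
  · exact hxm hy
  · have h3 : f 0 (g 0) ≤ f x (g x) :=
      hxm (by simp : (0 : Fin n → ℝ) ∈ Metric.closedBall 0 (max R 0))
    rw [mem_closedBall_zero_iff, not_le] at hy
    exact ((hg y 0).trans (hR y ((le_max_left _ _).trans hy.le))).trans h3

end Pool.Agent.Q149.IP
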