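import Pool.Agent.Q230.IP.St

/-!
# Project IP (helper230), job MM2: continuity of the max-min value (helper149)
-/

namespace Pool.Agent.Q149.IP

open Pool.Agent.Q230.IP

/-- MM2 -/
theorem mmcont : S_mmcont := by
  intro Q _ n f W hf hco hmm
  rw [continuous_iff_continuousAt]
  intro p
  obtain ⟨N, hN, h1, h2⟩ := hco p
  obtain ⟨x, hx1, hx2⟩ := hmm p
  have hlow : ∀ ε > 0, ∀ᶠ p' in nhds p, W p - ε < W p' := by
    intro ε hε
    obtain ⟨R, hR⟩ := h1 ‖x‖ (W p)
    have hK : IsCompact (Metric.closedBall (0 : Fin n → ℝ) R) := isCompact_closedBall _ _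
    have key : ∀ᶠ p' in nhds p, ∀ v ∈ Metric.closedBall (0 : Fin n → ℝ) R,
        W p - ε < f p' x v := by
      apply hK.eventually_forall_of_forall_eventually
      intro v _
      have hc : ContinuousAt (fun z : Q × (Fin n → ℝ) => f z.1 x z.2) (p, v) :=
        (hf.comp (by fun_prop : Continuous fun z : Q × (Fin n → ℝ) =>
          (z.1, (x, z.2)))).continuousAt
      exact hc.eventually (lt_mem_nhds (show W p - ε < f p x v by linarith [hx1 v]))
    filter_upwards [key, hN] with p' hp' hpN
    obtain ⟨x', hx'1, hx'2⟩ := hmm p'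
    obtain ⟨v, hv⟩ := hx'2 x
    rcases le_total ‖v‖ R with hvR | hvR
    · exact (hp' v (by simpa using hvR)).trans_le hv
    · have := hR p' hpN x v le_rfl hvR
      linarith
  have hup : ∀ ε > 0, ∀ᶠ p' in nhds p, W p' < W p + ε := by
    intro ε hε
    obtain ⟨R, hR⟩ := h2 (W p - ε)
    have hK : IsCompact (Metric.closedBall (0 : Fin n → ℝ) R) := isCompact_closedBall _ _
    have key : ∀ᶠ p' in nhds p, ∀ y ∈ Metric.closedBall (0 : Fin n → ℝ) R,
        ∃ v, f p' y v < W p + ε := by
      apply hK.eventually_forall_of_forall_eventually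
      intro y _
      obtain ⟨v, hv⟩ := hx2 y
      have hc : ContinuousAt (fun z : Q × (Fin n → ℝ) => f z.1 z.2 v) (p, y) :=
        (hf.comp (by fun_prop : Continuous fun z : Q × (Fin n → ℝ) =>
          (z.1, (z.2, v)))).continuousAt
      filter_upwards [hc.eventually (gt_mem_nhds (show f p y v < W p + ε by linarith))] with z hz
      exact ⟨v, hz⟩
    filter_upwards [key, hN, hlow ε hε] with p' hp' hpN hl
    obtain ⟨x', hx'1, hx'2⟩ := hmm p'
    rcases le_total ‖x'‖ R with hxR | hxR
    · obtain ⟨v, hv⟩ := hp' x' (by simpa using hxR)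
      exact (hx'1 v).trans_lt hv
    · have h3 := hR p' hpN x' hxR
      have h4 := hx'1 0
      linarith
  rw [ContinuousAt, Metric.tendsto_nhds]
  intro ε hε
  filter_upwards [hlow ε hε, hup ε hε] with p' h3 h4
  rw [Real.dist_eq, abs_lt]
  constructor <;> linarith

end Pool.Agent.Q149.IP
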