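import Pool.Agent.Q230.IP.St

/-!
# Project IP (helper230), job VV: the max-min value as a function of the parameters (helper149)
-/

namespace Pool.Agent.Q149.IP

open Pool.Agent.Q230.IP MvPolynomial

theorem isMM_unique {n : ℕ} {f : (Fin n → ℝ) → (Fin n → ℝ) → ℝ} {x x' : Fin n → ℝ} {V V' : ℝ}
    (h : IsMM f x V) (h' : IsMM f x' V') : V = V' := by
  apply le_antisymm
  · obtain ⟨v, hv⟩ := h'.2 x
    exact (h.1 v).trans hv
  · obtain ⟨v, hv⟩ := h.2 x'
    exact (h'.1 v).trans hv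

/-- VV -/
theorem vv (h1 : S_mmex) (h2 : S_mmcont) (h3 : S_FFD) (h4 : S_FFC) : S_VV := by
  classical
  intro n T A hn hT hP
  have hFF := (h3 n T A).1
  have hcont : ∀ p : Par n T → ℝ,
      Continuous (fun z : (Fin n → ℝ) × (Fin n → ℝ) => A.FF p z.1 z.2) := fun p =>
    hFF.comp (by fun_prop : Continuous fun z : (Fin n → ℝ) × (Fin n → ℝ) => (p, (z.1, z.2)))
  -- a neighbourhood of an admissible parameter is in a box
  have hbox : ∀ p : Par n T → ℝ, Adm p → ∃ lo hi δ : ℝ, 0 < lo ∧ 0 < δ ∧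
      ∀ p' : Par n T → ℝ, Adm p' → dist p' p < δ → InBox lo hi p' := by
    intro p hp
    refine ⟨min (p (Sum.inl 0)) (p (Sum.inl 2)) / 2, ‖p‖ + min (p (Sum.inl 0)) (p (Sum.inl 2)) / 2,
      min (p (Sum.inl 0)) (p (Sum.inl 2)) / 2, ?_, ?_, fun p' hp' hd => ?_⟩
    · exact half_pos (lt_min hp.1 hp.2.2)
    · exact half_pos (lt_min hp.1 hp.2.2)
    · have hi : ∀ i, |p' i - p i| < min (p (Sum.inl 0)) (p (Sum.inl 2)) / 2 := fun i => by
        have := dist_le_pi_dist p' p i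
        rw [Real.dist_eq] at this
        exact this.trans_lt hd
      have m0 : min (p (Sum.inl 0)) (p (Sum.inl 2)) ≤ p (Sum.inl 0) := min_le_left _ _
      have m2 : min (p (Sum.inl 0)) (p (Sum.inl 2)) ≤ p (Sum.inl 2) := min_le_right _ _
      refine ⟨?_, hp'.2.1, ?_, fun i => ?_⟩
      · have := (abs_lt.1 (hi (Sum.inl 0))).1
        linarith
      · have := (abs_lt.1 (hi (Sum.inl 2))).1
        linarith
      · have h5 : |p i| ≤ ‖p‖ := norm_le_pi_norm p i
        have h6 := abs_add_le (p' i - p i) (p i)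
        rw [sub_add_cancel] at h6
        have := hi i
        linarith
  have hex : ∀ p : Par n T → ℝ, Adm p → ∃ V, ∃ x, IsMM (A.FF p) x V := by
    intro p hp
    obtain ⟨lo, hi, δ, hlo, hδ, hb⟩ := hbox p hp
    have hin := hb p hp (by rw [dist_self]; exact hδ)
    obtain ⟨c1, c2⟩ := h4 n T A hn hT hP lo hi hlo
    obtain ⟨x, V, hxV⟩ := h1 n (A.FF p) (hcont p)
      (fun B M => by
        obtain ⟨R, hR⟩ := c1 B M
        exact ⟨R, fun x v hx hv => hR p hin x v hx hv⟩)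
      (fun M => by
        obtain ⟨R, hR⟩ := c2 M
        exact ⟨R, fun x hx => hR p hin x hx⟩)
    exact ⟨V, x, hxV⟩
  obtain ⟨W, hW⟩ : ∃ W : (Par n T → ℝ) → ℝ, ∀ p, Adm p → ∃ x, IsMM (A.FF p) x (W p) := by
    refine ⟨fun p => if h : Adm p then (hex p h).choose else 0, fun p hp => ?_⟩
    have e : (if h : Adm p then (hex p h).choose else 0) = (hex p hp).choose := dif_pos hp
    show ∃ x, IsMM (A.FF p) x (if h : Adm p then (hex p h).choose else 0)
    rw [e]
    exact (hex p hp).choose_spec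
  refine ⟨W, ?_, hW, fun p hp x V hxV => ?_⟩
  · rw [continuousOn_iff_continuous_domRestrict]
    refine h2 {p : Par n T → ℝ | Adm p} n (fun p => A.FF p.1) (fun p => W p.1) ?_ ?_
      (fun p => hW p.1 p.2)
    · exact hFF.comp (by fun_prop : Continuous fun z : {p : Par n T → ℝ | Adm p} ×
        ((Fin n → ℝ) × (Fin n → ℝ)) => (z.1.1, (z.2.1, z.2.2)))
    · intro p
      obtain ⟨lo, hi, δ, hlo, hδ, hb⟩ := hbox p.1 p.2
      obtain ⟨c1, c2⟩ := h4 n T A hn hT hP lo hi hlo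
      refine ⟨Metric.ball p δ, Metric.ball_mem_nhds _ hδ, fun B M => ?_, fun M => ?_⟩
      · obtain ⟨R, hR⟩ := c1 B M
        exact ⟨R, fun p' hp' x v hx hv => hR p'.1 (hb p'.1 p'.2 hp') x v hx hv⟩
      · obtain ⟨R, hR⟩ := c2 M
        exact ⟨R, fun p' hp' x hx => hR p'.1 (hb p'.1 p'.2 hp') x hx⟩
  · obtain ⟨x', hx'⟩ := hW p hp
    exact isMM_unique hxV hx'

end Pool.Agent.Q149.IP
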